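import Mathlib
import Pool.Agent.Y367.FB.Upper

/-!
# The largest rank of a subgroup generated by short elements

`N(r,n)`, the largest size of a subset of the ball `B_n` of the free group of rank `r` that freely
generates a subgroup, is also the largest rank of a subgroup generated by elements of `B_n` (by any
number of them, in any way), and the largest size of a subset of `H ∩ B_n`, for any subgroup `H`, that
is linearly independent in the first homology of `H` modulo `2`.
-/

set_option autoImplicit false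

namespace Pool.Agent.Results.MP_15e198_al.LargestRank

open FreeGroup

/-- The value of `N(r,n)`. -/
def bound (r n : ℕ) : ℕ :=
  if n = 0 then 0 else if Even n then (2 * r - 1) ^ (n / 2) else r * (2 * r - 1) ^ (n / 2)

/-- `X` is a finite subset of `H` that is independent modulo `2`: every function on `X` with values in
`ZMod 2` is the restriction of a homomorphism from `H` to `ZMod 2`.  Equivalently, the elements of `X`
are distinct and linearly independent in the first homology of `H` with coefficients `ZMod 2`. -/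
def IndepModTwo {r : ℕ} (H : Subgroup (FreeGroup (Fin r))) (X : Finset (FreeGroup (Fin r))) : Prop :=
  ∃ h : ∀ x ∈ X, x ∈ H, ∀ f : X → ZMod 2, ∃ χ : H →* Multiplicative (ZMod 2), ∀ x (hx : x ∈ X),
    χ ⟨x, h x hx⟩ = Multiplicative.ofAdd (f ⟨x, hx⟩)

/-- `H` is generated by its elements of length at most `n`. -/
def GenByBall {r : ℕ} (n : ℕ) (H : Subgroup (FreeGroup (Fin r))) : Prop :=
  Subgroup.closure {g | g ∈ H ∧ FreeGroup.norm g ≤ n} = H

/-- `H` is free of rank `k`. -/
def HasRank {r : ℕ} (H : Subgroup (FreeGroup (Fin r))) (k : ℕ) : Prop :=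
  Nonempty (FreeGroup (Fin k) ≃* H)

variable {r : ℕ}

theorem indep_card_le (hr : 1 ≤ r) (n : ℕ) (H : Subgroup (FreeGroup (Fin r)))
    (X : Finset (FreeGroup (Fin r))) (hX : IndepModTwo H X)
    (hn : ∀ x ∈ X, FreeGroup.norm x ≤ n) : X.card ≤ bound r n := by
  obtain ⟨hXH, hχ⟩ := hX
  have hne : Nonempty (Fin r) := ⟨⟨0, hr⟩⟩
  unfold bound
  by_cases h0 : n = 0
  · rw [if_pos h0, Nat.le_zero, Finset.card_eq_zero]
    by_contra hX'
    obtain ⟨g, hg⟩ := Finset.nonempty_iff_ne_empty.2 hX'
    have hg1 : g = 1 := by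
      have := hn g hg
      rw [h0, Nat.le_zero, FreeGroup.norm_eq_zero] at this
      exact this
    obtain ⟨χ, h1⟩ := hχ fun _ => 1
    have h2 := h1 g hg
    have h3 : (⟨g, hXH g hg⟩ : H) = 1 := Subtype.ext hg1
    rw [h3, _root_.map_one] at h2
    have h4 : (0 : ZMod 2) = 1 := congrArg Multiplicative.toAdd h2
    exact absurd h4 (by decide)
  · rw [if_neg h0]
    rcases Nat.even_or_odd' n with ⟨m, hm | hm⟩
    · obtain ⟨m', rfl⟩ : ∃ m', m = m' + 1 := ⟨m - 1, by omega⟩
      have he : Even n := ⟨m' + 1, by omega⟩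
      have hd : n / 2 = m' + 1 := by omega
      rw [if_pos he, hd]
      have := Pool.Agent.Y367.FB.upper_even X H m' hXH hχ (fun x hx => by
        have := hn x hx
        omega)
      simpa using this
    · have he : ¬ Even n := by
        rw [Nat.not_even_iff_odd]
        exact ⟨m, hm⟩
      have hd : n / 2 = m := by omega
      rw [if_neg he, hd]
      have := Pool.Agent.Y367.FB.upper_odd X H m hXH hχ (fun x hx => by
        have := hn x hx
        omega)
      simpa using this

/-- A subgroup generated by a finite set `S`, free on `ι`, has a subset of `S` with `ι` many elements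
that is independent modulo `2`. -/
theorem exists_indep (H : Subgroup (FreeGroup (Fin r))) {ι : Type} (e : FreeGroup ι ≃* H)
    (S : Set (FreeGroup (Fin r))) (hSfin : S.Finite) (hSH : ∀ x ∈ S, x ∈ H)
    (hS : Subgroup.closure S = H) :
    Finite ι ∧ ∃ X : Finset (FreeGroup (Fin r)), (∀ x ∈ X, x ∈ S) ∧ X.card = Nat.card ι ∧
      IndepModTwo H X := by
  classical
  let v0 : FreeGroup ι →* Multiplicative (ι →₀ ZMod 2) :=
    FreeGroup.lift fun i => Multiplicative.ofAdd (Finsupp.single i 1)
  let v : H →* Multiplicative (ι →₀ ZMod 2) := v0.comp e.symm.toMonoidHom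
  let T : Set (ι →₀ ZMod 2) := {y | ∃ (x : FreeGroup (Fin r)) (hx : x ∈ S),
    (v ⟨x, hSH x hx⟩).toAdd = y}
  have hTfin : T.Finite := by
    have : Finite S := hSfin
    refine (Set.finite_range fun x : S => (v ⟨x.1, hSH x.1 x.2⟩).toAdd).subset ?_
    rintro y ⟨x, hx, rfl⟩
    exact ⟨⟨x, hx⟩, rfl⟩
  have hspan0 : ∀ g (hg : g ∈ H), (v ⟨g, hg⟩).toAdd ∈ Submodule.span (ZMod 2) T := by
    intro g hg
    have hg' : g ∈ Subgroup.closure S := by rw [hS]; exact hg
    induction hg' using Subgroup.closure_induction with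
    | mem x hx => exact Submodule.subset_span ⟨x, hx, rfl⟩
    | one =>
      have h3 : (⟨1, hg⟩ : H) = 1 := rfl
      rw [h3, _root_.map_one]
      exact Submodule.zero_mem _
    | mul x y hx hy ihx ihy =>
      have hx' : x ∈ H := by rw [← hS]; exact hx
      have hy' : y ∈ H := by rw [← hS]; exact hy
      have h3 : (⟨x * y, hg⟩ : H) = ⟨x, hx'⟩ * ⟨y, hy'⟩ := rfl
      rw [h3, _root_.map_mul, toAdd_mul]
      exact Submodule.add_mem _ (ihx hx') (ihy hy')
    | inv x hx ihx =>
      have hx' : x ∈ H := by rw [← hS]; exact hx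
      have h3 : (⟨x⁻¹, hg⟩ : H) = (⟨x, hx'⟩ : H)⁻¹ := rfl
      rw [h3, _root_.map_inv, toAdd_inv]
      exact Submodule.neg_mem _ (ihx hx')
  have hspan : Submodule.span (ZMod 2) T = ⊤ := by
    rw [eq_top_iff, ← (Finsupp.basisSingleOne (R := ZMod 2) (ι := ι)).span_eq, Submodule.span_le]
    rintro _ ⟨i, rfl⟩
    have h1 := hspan0 (e (of i) : FreeGroup (Fin r)) (e (of i)).2
    have h2 : v ⟨(e (of i) : FreeGroup (Fin r)), (e (of i)).2⟩ =
        Multiplicative.ofAdd (Finsupp.single i 1) := by
      show v0 (e.symm (e (of i))) = _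
      rw [MulEquiv.symm_apply_apply]
      exact FreeGroup.lift_apply_of
    rw [h2] at h1
    rw [Finsupp.coe_basisSingleOne]
    exact h1
  obtain ⟨B, hBT, hBspan, hBind⟩ := exists_linearIndependent (ZMod 2) T
  have hBfin : B.Finite := hTfin.subset hBT
  have : Finite B := hBfin
  have : Fintype B := Fintype.ofFinite B
  let bas : Module.Basis B (ZMod 2) (ι →₀ ZMod 2) := Module.Basis.mk hBind (by
    rw [Subtype.range_coe, hBspan, hspan])
  have hbas : ∀ y : B, bas y = y.1 := fun y => Module.Basis.mk_apply _ _ _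
  have hfd : Module.Finite (ZMod 2) (ι →₀ ZMod 2) := Module.Finite.of_basis bas
  have hι : Finite ι :=
    Module.Finite.finite_basis (Finsupp.basisSingleOne (R := ZMod 2) (ι := ι))
  refine ⟨hι, ?_⟩
  have : Fintype ι := Fintype.ofFinite ι
  have hcard : Nat.card B = Nat.card ι := by
    rw [Nat.card_eq_fintype_card, Nat.card_eq_fintype_card, ← Module.finrank_eq_card_basis bas,
      ← Module.finrank_eq_card_basis (Finsupp.basisSingleOne (R := ZMod 2) (ι := ι))]
  have hpick : ∀ y : B, ∃ (x : FreeGroup (Fin r)) (hx : x ∈ S),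
    (v ⟨x, hSH x hx⟩).toAdd = y.1 := fun y => hBT y.2
  choose x hxS hxv using hpick
  have hxinj : Function.Injective x := by
    intro y y' h
    apply Subtype.ext
    rw [← hxv y, ← hxv y']
    congr 2
    exact Subtype.ext h
  have hXS : ∀ z ∈ Finset.univ.image x, z ∈ S := by
    intro z hz
    obtain ⟨y, -, rfl⟩ := Finset.mem_image.1 hz
    exact hxS y
  refine ⟨Finset.univ.image x, hXS, ?_, fun z hz => hSH z (hXS z hz), ?_⟩
  · rw [Finset.card_image_of_injective _ hxinj, Finset.card_univ, ← Nat.card_eq_fintype_card, hcard]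
  · intro f
    let ℓ : (ι →₀ ZMod 2) →ₗ[ZMod 2] ZMod 2 := bas.constr (ZMod 2) fun y =>
      f ⟨x y, Finset.mem_image_of_mem x (Finset.mem_univ y)⟩
    refine ⟨(AddMonoidHom.toMultiplicative ℓ.toAddMonoidHom).comp v, fun z hz => ?_⟩
    obtain ⟨y, -, rfl⟩ := Finset.mem_image.1 hz
    have h1 : ℓ y.1 = f ⟨x y, hz⟩ := by
      rw [← hbas y]
      exact bas.constr_basis (ZMod 2) _ y
    show Multiplicative.ofAdd (ℓ (v ⟨x y, hSH (x y) (hXS (x y) hz)⟩).toAdd) = _
    rw [hxv y, h1]

theorem finite_ball' (n : ℕ) : {g : FreeGroup (Fin r) | FreeGroup.norm g ≤ n}.Finite :=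
  Pool.Agent.Results.MP_15e198_al.Main.finite_ball (Fin r) n

theorem rank_le (hr : 1 ≤ r) (n : ℕ) (H : Subgroup (FreeGroup (Fin r))) (hH : GenByBall n H)
    {ι : Type} (e : FreeGroup ι ≃* H) : Finite ι ∧ Nat.card ι ≤ bound r n := by
  obtain ⟨h1, X, hX, hcard, hind⟩ := exists_indep H e {g | g ∈ H ∧ FreeGroup.norm g ≤ n}
    ((finite_ball' n).subset fun g hg => hg.2) (fun x hx => hx.1) hH
  refine ⟨h1, ?_⟩
  rw [← hcard]
  exact indep_card_le hr n H X hind fun x hx => (hX x hx).2

/-- For all `r ≥ 1` and `n`, the number `bound r n` (which is `0` for `n = 0`, `(2r-1)^(n/2)` for even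
`n ≥ 2` and `r (2r-1)^((n-1)/2)` for odd `n`) is

* `N(r,n)`, the largest size of a subset of the ball `B_n` of the free group of rank `r` that freely
  generates a subgroup;
* the largest rank of a subgroup generated by elements of length at most `n`, and every such subgroup
  is free of finite rank;
* the largest size of a subset of `H ∩ B_n` that is independent modulo `2` in `H`, over all
  subgroups `H`. -/
theorem result (r : ℕ) (hr : 1 ≤ r) (n : ℕ) :
    IsGreatest {k : ℕ | ∃ X : Finset (FreeGroup (Fin r)),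
        (∀ g ∈ X, FreeGroup.norm g ≤ n) ∧
        Function.Injective (FreeGroup.lift (fun x : X => (x : FreeGroup (Fin r)))) ∧
        X.card = k} (bound r n) ∧
    IsGreatest {k : ℕ | ∃ H : Subgroup (FreeGroup (Fin r)), GenByBall n H ∧ HasRank H k}
      (bound r n) ∧
    (∀ H : Subgroup (FreeGroup (Fin r)), GenByBall n H → ∃ k ≤ bound r n, HasRank H k) ∧
    IsGreatest {k : ℕ | ∃ (H : Subgroup (FreeGroup (Fin r))) (X : Finset (FreeGroup (Fin r))),
        IndepModTwo H X ∧ (∀ g ∈ X, FreeGroup.norm g ≤ n) ∧ X.card = k} (bound r n) := by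
  classical
  have h0 : IsGreatest {k : ℕ | ∃ X : Finset (FreeGroup (Fin r)),
        (∀ g ∈ X, FreeGroup.norm g ≤ n) ∧
        Function.Injective (FreeGroup.lift (fun x : X => (x : FreeGroup (Fin r)))) ∧
        X.card = k} (bound r n) := Pool.Agent.Results.MP_15e198_al.Main.result r hr n
  obtain ⟨X, hXn, hX, hXc⟩ := h0.1
  set H : Subgroup (FreeGroup (Fin r)) :=
    (FreeGroup.lift (fun x : X => (x : FreeGroup (Fin r)))).range with hHdef
  have hXH : ∀ x ∈ X, x ∈ H := fun x hx => ⟨of ⟨x, hx⟩, by simp⟩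
  let eX : FreeGroup X ≃* H := MonoidHom.ofInjective hX
  have hHcl : H ≤ Subgroup.closure (X : Set (FreeGroup (Fin r))) := by
    rintro _ ⟨w, rfl⟩
    induction w using FreeGroup.induction_on with
    | C1 => rw [_root_.map_one]; exact Subgroup.one_mem _
    | of x => rw [lift_apply_of]; exact Subgroup.subset_closure x.2
    | inv_of x _ => rw [_root_.map_inv, lift_apply_of]; exact Subgroup.inv_mem _ (Subgroup.subset_closure x.2)
    | mul x y hx hy => rw [_root_.map_mul]; exact Subgroup.mul_mem _ hx hy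
  have hHgen : GenByBall n H := by
    refine le_antisymm ?_ ?_
    · rw [Subgroup.closure_le]
      exact fun g hg => hg.1
    · exact hHcl.trans (Subgroup.closure_mono fun g hg => ⟨hXH g hg, hXn g hg⟩)
  refine ⟨h0, ⟨⟨H, hHgen, ?_⟩, ?_⟩, ?_, ⟨⟨H, X, ?_, hXn, hXc⟩, ?_⟩⟩
  · have e1 : Fin (bound r n) ≃ X := by
      rw [← hXc]
      exact (Fintype.equivFinOfCardEq (Fintype.card_coe X)).symm
    exact ⟨(FreeGroup.freeGroupCongr e1).trans eX⟩
  · rintro k ⟨H', hH', ⟨e⟩⟩
    have := (rank_le hr n H' hH' e).2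
    rwa [Nat.card_eq_fintype_card, Fintype.card_fin] at this
  · intro H' hH'
    have e1 : H' ≃* FreeGroup (IsFreeGroup.Generators H') := IsFreeGroup.toFreeGroup H'
    obtain ⟨h1, h2⟩ := rank_le hr n H' hH' e1.symm
    refine ⟨_, h2, ⟨?_⟩⟩
    have e2 : Fin (Nat.card (IsFreeGroup.Generators H')) ≃ IsFreeGroup.Generators H' :=
      (Finite.equivFin _).symm
    exact (FreeGroup.freeGroupCongr e2).trans e1.symm
  · refine ⟨hXH, fun f => ?_⟩
    refine ⟨(FreeGroup.lift (fun x : X => Multiplicative.ofAdd (f x))).comp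
      eX.symm.toMonoidHom, fun x hx => ?_⟩
    have h1 : eX.symm ⟨x, hXH x hx⟩ = of ⟨x, hx⟩ := by
      rw [MulEquiv.symm_apply_eq]
      apply Subtype.ext
      change x = ((eX (of ⟨x, hx⟩) : H) : FreeGroup (Fin r))
      rw [MonoidHom.ofInjective_apply, lift_apply_of]
    show FreeGroup.lift (fun x : X => Multiplicative.ofAdd (f x)) (eX.symm ⟨x, hXH x hx⟩) = _
    rw [h1, lift_apply_of]
  · rintro k ⟨H', X', h1, h2, rfl⟩
    exact indep_card_le hr n H' X' h1 h2

end Pool.Agent.Results.MP_15e198_al.LargestRank
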